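import Mathlib

/-
Counterexample with r = 3 and H the star with three leaves.
Let F be the graph made of a clique on five high vertices together with five low vertices,
the low vertex number h being adjacent to the four high vertices other than h.
G is made of many copies of F glued along the triangle of the high vertices 0, 1, 2.
-/

set_option autoImplicit false

namespace Pool.Agent.Lib.MP_8cd7cf_co

/-- Index of a copy: a choice of colours for the triangle and a serial number. -/
abbrev Cp := (Fin 3 → Fin 4) × Fin 7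

/-- Vertices: the shared triangle, and seven private vertices for each copy. -/
abbrev Vx := Fin 3 ⊕ (Cp × Fin 7)

/-- Adjacency in the ten vertex graph F (vertices below 5 are high). -/
def fadj (i j : Fin 10) : Prop :=
  (i.val < 5 ∧ j.val < 5 ∧ i ≠ j) ∨ (i.val < 5 ∧ 5 ≤ j.val ∧ i.val + 5 ≠ j.val) ∨
    (j.val < 5 ∧ 5 ≤ i.val ∧ j.val + 5 ≠ i.val)

instance fadjDec (i j : Fin 10) : Decidable (fadj i j) := by unfold fadj; infer_instance

theorem fadj_symm : ∀ i j : Fin 10, fadj i j → fadj j i := by decide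

theorem fadj_irrefl : ∀ i : Fin 10, ¬ fadj i i := by decide

/-- Position of a vertex in F. -/
def loc : Vx → Fin 10
  | Sum.inl i => ⟨i.val, by omega⟩
  | Sum.inr p => ⟨p.2.val + 3, by omega⟩

/-- Two vertices lie in a common copy of F. -/
def compat : Vx → Vx → Prop
  | Sum.inr p, Sum.inr q => p.1 = q.1
  | _, _ => True

theorem compat_symm : ∀ u v : Vx, compat u v → compat v u := by
  rintro (u | u) (v | v) h <;> simp_all [compat]

/-- The graph G. -/
def G : SimpleGraph Vx where
  Adj u v := fadj (loc u) (loc v) ∧ compat u v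
  symm := ⟨fun u v h => ⟨fadj_symm _ _ h.1, compat_symm _ _ h.2⟩⟩
  loopless := ⟨fun u h => fadj_irrefl _ h.1⟩

/-- The copy of F with index t inside G. -/
def emb (t : Cp) (k : Fin 10) : Vx :=
  if h : k.val < 3 then Sum.inl ⟨k.val, h⟩ else Sum.inr (t, ⟨k.val - 3, by omega⟩)

theorem loc_emb (t : Cp) (k : Fin 10) : loc (emb t k) = k := by
  unfold emb
  split_ifs with h
  · rfl
  · apply Fin.ext; simp only [loc]; omega

theorem emb_loc_inl (t : Cp) (i : Fin 3) : emb t (loc (Sum.inl i)) = Sum.inl i := by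
  simp [emb, loc]

theorem emb_loc_inr (p : Cp × Fin 7) : emb p.1 (loc (Sum.inr p)) = Sum.inr p := by
  simp [emb, loc]

theorem adj_emb (t : Cp) (k l : Fin 10) (h : fadj k l) : G.Adj (emb t k) (emb t l) := by
  refine ⟨by rwa [loc_emb, loc_emb], ?_⟩
  unfold emb
  split_ifs <;> simp [compat]

/-- The star with three leaves. -/
def star : SimpleGraph (Fin 4) where
  Adj a b := a ≠ b ∧ (a = 0 ∨ b = 0)
  symm := ⟨fun a b h => ⟨h.1.symm, h.2.symm⟩⟩
  loopless := ⟨fun a h => h.1 rfl⟩

theorem star_connected : star.Connected := by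
  have h : ∀ a : Fin 4, star.Reachable 0 a := by
    intro a
    by_cases ha : a = 0
    · subst ha; exact SimpleGraph.Reachable.refl _
    · exact SimpleGraph.Adj.reachable ⟨fun h => ha h.symm, Or.inl rfl⟩
  exact ⟨fun a b => (h a).symm.trans (h b)⟩

theorem const_of_connected {V β : Type} (Γ : SimpleGraph V) (S : Set V)
    (hS : (Γ.induce S).Connected) (f : V → β)
    (hf : ∀ x ∈ S, ∀ y ∈ S, Γ.Adj x y → f x = f y) :
    ∀ x ∈ S, ∀ y ∈ S, f x = f y := by
  intro x hx y hy
  obtain ⟨w⟩ := hS.preconnected ⟨x, hx⟩ ⟨y, hy⟩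
  have key : ∀ (a b : S) (w : (Γ.induce S).Walk a b), f a.1 = f b.1 := by
    intro a b w
    induction w with
    | nil => rfl
    | cons h _ ih => exact (hf _ (Subtype.prop _) _ (Subtype.prop _) h).trans ih
  exact key _ _ w

/-- Index type of the branch sets. -/
abbrev Ix := Fin 3 ⊕ Fin 4

/-- Adjacency in the join of three independent vertices with the star. -/
def kadj : Ix → Ix → Prop
  | Sum.inl _, Sum.inl _ => False
  | Sum.inl _, Sum.inr _ => True
  | Sum.inr _, Sum.inl _ => True
  | Sum.inr a, Sum.inr b => a ≠ b ∧ (a = 0 ∨ b = 0)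

instance kadjDec : (u v : Ix) → Decidable (kadj u v)
  | Sum.inl _, Sum.inl _ => isFalse (fun h => h)
  | Sum.inl _, Sum.inr _ => isTrue trivial
  | Sum.inr _, Sum.inl _ => isTrue trivial
  | Sum.inr a, Sum.inr b => inferInstanceAs (Decidable (a ≠ b ∧ (a = 0 ∨ b = 0)))

set_option synthInstance.maxSize 1000 in
theorem k_path : ∀ a b c : Option Ix, ∀ u v : Ix,
    (a ≠ some u ∧ b ≠ some u ∧ c ≠ some u) → (a ≠ some v ∧ b ≠ some v ∧ c ≠ some v) →
    u = v ∨ kadj u v ∨ ∃ w : Ix, (a ≠ some w ∧ b ≠ some w ∧ c ≠ some w) ∧ kadj u w ∧ kadj w v := by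
  decide +kernel

theorem k_free : ∀ a b c : Option Ix, ∃ u : Ix, a ≠ some u ∧ b ≠ some u ∧ c ≠ some u := by
  decide +kernel

theorem k_deg : ∀ u : Ix, 4 ≤ (Finset.univ.filter (fun v => kadj u v)).card := by
  decide +kernel

theorem k_third : ∀ u v : Ix, u ≠ v → ¬ kadj u v →
    ∃ x : Ix, x ≠ u ∧ x ≠ v ∧ ¬ kadj u x ∧ ¬ kadj v x := by
  decide +kernel

theorem avoid_three : ∀ a b c : Fin 5, a ≠ b → a ≠ c → b ≠ c → ∀ x y : Fin 5,
    (x ≠ a ∧ y ≠ a) ∨ (x ≠ b ∧ y ≠ b) ∨ (x ≠ c ∧ y ≠ c) := by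
  decide +kernel

/-- The finite heart of the argument: F has no minor of the excluded graph. -/
theorem finite_core (g : Fin 5 → Option Ix) (φ : Ix → Fin 5)
    (hinj : ∀ u v, (∀ h, g h ≠ some u) → (∀ h, g h ≠ some v) → φ u = φ v → u = v)
    (hok : ∀ u, (∀ h, g h ≠ some u) → ∀ v, kadj u v → ∃ h, h ≠ φ u ∧ g h = some v) : False := by
  classical
  have main : ∀ u, (∀ h, g h ≠ some u) →
      (∀ h, h ≠ φ u → ∃ v, kadj u v ∧ g h = some v) ∧
      (∀ h h', h ≠ φ u → h' ≠ φ u → g h = g h' → h = h') := by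
    intro u hu
    set N : Finset (Option Ix) := (Finset.univ.filter (fun v => kadj u v)).image some with hN
    have hNcard : 4 ≤ N.card := by
      rw [hN, Finset.card_image_of_injective _ (Option.some_injective _)]
      exact k_deg u
    have hE : (Finset.univ.erase (φ u)).card = 4 := by
      rw [Finset.card_erase_of_mem (Finset.mem_univ _)]; simp
    have hsub : N ⊆ (Finset.univ.erase (φ u)).image g := by
      intro x hx
      rw [hN, Finset.mem_image] at hx
      obtain ⟨v, hv, rfl⟩ := hx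
      obtain ⟨h, hh, hg⟩ := hok u hu v (Finset.mem_filter.mp hv).2
      exact Finset.mem_image.mpr ⟨h, Finset.mem_erase.mpr ⟨hh, Finset.mem_univ _⟩, hg⟩
    have hle : ((Finset.univ.erase (φ u)).image g).card ≤ 4 := Finset.card_image_le.trans hE.le
    have heq : N = (Finset.univ.erase (φ u)).image g :=
      Finset.eq_of_subset_of_card_le hsub (hle.trans hNcard)
    have hcard : ((Finset.univ.erase (φ u)).image g).card = (Finset.univ.erase (φ u)).card := by
      rw [hE]; exact le_antisymm hle (heq ▸ hNcard)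
    have hI := Finset.injOn_of_card_image_eq hcard
    constructor
    · intro h hh
      have : g h ∈ N := heq ▸ Finset.mem_image.mpr
        ⟨h, Finset.mem_erase.mpr ⟨hh, Finset.mem_univ _⟩, rfl⟩
      rw [hN, Finset.mem_image] at this
      obtain ⟨v, hv, hv'⟩ := this
      exact ⟨v, (Finset.mem_filter.mp hv).2, hv'.symm⟩
    · intro h h' hh hh' e
      exact hI (by simp [hh]) (by simp [hh']) e
  set P : Finset Ix := Finset.univ.filter (fun u => ∀ h, g h ≠ some u) with hP
  set Q : Finset Ix := Finset.univ.filter (fun u => ¬ ∀ h, g h ≠ some u) with hQ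
  have hPQ : P.card + Q.card = 7 := by
    rw [hP, hQ, Finset.card_filter_add_card_filter_not]; simp
  have hQim : Q.image some ⊆ Finset.univ.image g := by
    intro x hx
    obtain ⟨v, hv, rfl⟩ := Finset.mem_image.mp hx
    have := (Finset.mem_filter.mp hv).2
    push Not at this
    obtain ⟨h, hh⟩ := this
    exact Finset.mem_image.mpr ⟨h, Finset.mem_univ _, hh⟩
  have hQ5 : Q.card ≤ 5 := by
    have h1 := Finset.card_le_card hQim
    rw [Finset.card_image_of_injective _ (Option.some_injective _)] at h1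
    have h2 : (Finset.univ.image g).card ≤ 5 := Finset.card_image_le.trans (by simp)
    omega
  have hP2 : 1 < P.card := by omega
  obtain ⟨u, hu, v, hv, huv⟩ := Finset.one_lt_card.mp hP2
  have hu' := (Finset.mem_filter.mp hu).2
  have hv' := (Finset.mem_filter.mp hv).2
  have hφuv : φ u ≠ φ v := fun e => huv (hinj u v hu' hv' e)
  have hnadj : ¬ kadj u v := by
    intro h
    obtain ⟨h', _, e⟩ := hok u hu' v h
    exact hv' h' e
  obtain ⟨x, hxu, hxv, hux, hvx⟩ := k_third u v huv hnadj
  have hall : ∀ h, ∃ y, (kadj u y ∨ kadj v y) ∧ g h = some y := by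
    intro h
    by_cases hh : h = φ u
    · obtain ⟨y, hy, e⟩ := (main v hv').1 h (hh ▸ hφuv)
      exact ⟨y, Or.inr hy, e⟩
    · obtain ⟨y, hy, e⟩ := (main u hu').1 h hh
      exact ⟨y, Or.inl hy, e⟩
  have hx' : ∀ h, g h ≠ some x := by
    intro h e
    obtain ⟨y, hy, e'⟩ := hall h
    have : y = x := Option.some_injective _ (e'.symm.trans e)
    subst this
    tauto
  have hφux : φ u ≠ φ x := fun e => hxu (hinj u x hu' hx' e).symm
  have hφvx : φ v ≠ φ x := fun e => hxv (hinj v x hv' hx' e).symm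
  have hginj : Function.Injective g := by
    intro a b e
    rcases avoid_three _ _ _ hφuv hφux hφvx a b with h | h | h
    · exact (main u hu').2 a b h.1 h.2 e
    · exact (main v hv').2 a b h.1 h.2 e
    · exact (main x hx').2 a b h.1 h.2 e
  have hQim' : Finset.univ.image g ⊆ Q.image some := by
    intro y hy
    obtain ⟨h, _, rfl⟩ := Finset.mem_image.mp hy
    obtain ⟨y, _, e⟩ := hall h
    refine Finset.mem_image.mpr ⟨y, Finset.mem_filter.mpr ⟨Finset.mem_univ _, ?_⟩, e.symm⟩
    intro hc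
    exact hc h e
  have hQ5' : 5 ≤ Q.card := by
    have h1 := Finset.card_le_card hQim'
    rw [Finset.card_image_of_injective _ (Option.some_injective _),
      Finset.card_image_of_injective _ hginj] at h1
    simpa using h1
  have hP3 : 2 < P.card := by
    rw [Finset.two_lt_card_iff]
    exact ⟨u, v, x, hu, hv, Finset.mem_filter.mpr ⟨Finset.mem_univ _, hx'⟩, huv, hxu.symm, hxv.symm⟩
  omega

/-- The copy index of a private vertex. -/
def cp : Vx → Option Cp
  | Sum.inl _ => none
  | Sum.inr p => some p.1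

theorem no_model (M : Ix → Set Vx) (hconn : ∀ u, (G.induce (M u)).Connected)
    (hdisj : ∀ u v, u ≠ v → Disjoint (M u) (M v))
    (hadj : ∀ u v, kadj u v → ∃ x ∈ M u, ∃ y ∈ M v, G.Adj x y) : False := by
  classical
  let lab : Vx → Option Ix := fun x => if h : ∃ u, x ∈ M u then some h.choose else none
  have hlab : ∀ x u, lab x = some u ↔ x ∈ M u := by
    intro x u
    constructor
    · intro e
      by_cases h : ∃ u, x ∈ M u
      · have h1 : lab x = some h.choose := dif_pos h
        have h2 : h.choose = u := Option.some_injective _ (h1.symm.trans e)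
        exact h2 ▸ h.choose_spec
      · have h1 : lab x = none := dif_neg h
        rw [h1] at e; cases e
    · intro hx
      have h : ∃ u, x ∈ M u := ⟨u, hx⟩
      have h1 : lab x = some h.choose := dif_pos h
      rw [h1]
      congr 1
      by_contra hne
      exact Set.disjoint_left.mp (hdisj _ _ hne) h.choose_spec hx
  have hne : ∀ u, ∃ x, x ∈ M u := by
    intro u
    obtain ⟨⟨x, hx⟩⟩ := (hconn u).nonempty
    exact ⟨x, hx⟩
  let free : Ix → Prop := fun u =>
    lab (Sum.inl 0) ≠ some u ∧ lab (Sum.inl 1) ≠ some u ∧ lab (Sum.inl 2) ≠ some u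
  have hfree : ∀ u, free u → ∀ x ∈ M u, ∃ p, x = Sum.inr p := by
    intro u hu x hx
    rcases x with i | p
    · exfalso
      have := (hlab _ _).mpr hx
      fin_cases i
      · exact hu.1 this
      · exact hu.2.1 this
      · exact hu.2.2 this
    · exact ⟨p, rfl⟩
  have hcp_adj : ∀ p q : Cp × Fin 7, G.Adj (Sum.inr p) (Sum.inr q) →
      cp (Sum.inr p) = cp (Sum.inr q) := by
    intro p q h
    have : p.1 = q.1 := h.2
    simp [cp, this]
  have hsame : ∀ u, free u → ∀ x ∈ M u, ∀ y ∈ M u, cp x = cp y := by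
    intro u hu
    apply const_of_connected G (M u) (hconn u) cp
    intro x hx y hy hxy
    obtain ⟨p, rfl⟩ := hfree u hu x hx
    obtain ⟨q, rfl⟩ := hfree u hu y hy
    exact hcp_adj p q hxy
  have hstep : ∀ u v, free u → free v → kadj u v → ∀ x ∈ M u, ∀ y ∈ M v, cp x = cp y := by
    intro u v hu hv huv x hx y hy
    obtain ⟨x', hx', y', hy', h⟩ := hadj u v huv
    rw [hsame u hu x hx x' hx', hsame v hv y hy y' hy']
    obtain ⟨p, rfl⟩ := hfree u hu x' hx'
    obtain ⟨q, rfl⟩ := hfree v hv y' hy'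
    exact hcp_adj p q h
  have hall : ∀ u v, free u → free v → ∀ x ∈ M u, ∀ y ∈ M v, cp x = cp y := by
    intro u v hu hv x hx y hy
    rcases k_path _ _ _ u v hu hv with h | h | ⟨w, hw, h1, h2⟩
    · subst h; exact hsame u hu x hx y hy
    · exact hstep u v hu hv h x hx y hy
    · obtain ⟨z, hz⟩ := hne w
      exact (hstep u w hu hw h1 x hx z hz).trans (hstep w v hw hv h2 z hz y hy)
  obtain ⟨u0, hu0⟩ := k_free (lab (Sum.inl 0)) (lab (Sum.inl 1)) (lab (Sum.inl 2))
  obtain ⟨x0, hx0⟩ := hne u0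
  obtain ⟨p0, rfl⟩ := hfree u0 hu0 x0 hx0
  set t := p0.1 with ht
  have hin : ∀ u, free u → ∀ x ∈ M u, x = emb t (loc x) ∧ ∃ p, x = Sum.inr p ∧ p.1 = t := by
    intro u hu x hx
    obtain ⟨p, rfl⟩ := hfree u hu x hx
    have h1 := hall u u0 hu hu0 _ hx _ hx0
    have h2 : p.1 = t := by simpa [cp] using h1
    exact ⟨by rw [← h2, emb_loc_inr], p, rfl, h2⟩
  let g : Fin 5 → Option Ix := fun h => lab (emb t ⟨h.val, by omega⟩)
  have hpure : ∀ u, (∀ h, g h ≠ some u) → free u := by
    intro u hu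
    exact ⟨hu 0, hu 1, hu 2⟩
  have hlow : ∀ u, (∀ h, g h ≠ some u) → ∀ x ∈ M u, 5 ≤ (loc x).val := by
    intro u hu x hx
    by_contra hlt
    push Not at hlt
    apply hu ⟨(loc x).val, hlt⟩
    have := (hin u (hpure u hu) x hx).1
    show lab (emb t (loc x)) = some u
    rw [← this]
    exact (hlab _ _).mpr hx
  have hsingle : ∀ u, (∀ h, g h ≠ some u) → ∀ x ∈ M u, ∀ y ∈ M u, x = y := by
    intro u hu
    apply const_of_connected G (M u) (hconn u) (fun x => x)
    intro x hx y hy hxy
    exfalso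
    have h1 := hlow u hu x hx
    have h2 := hlow u hu y hy
    have h3 : fadj (loc x) (loc y) := hxy.1
    unfold fadj at h3
    omega
  choose rep hrep using hne
  let φ : Ix → Fin 5 := fun u => ⟨(loc (rep u)).val - 5, by omega⟩
  apply finite_core g φ
  · intro u v hu hv e
    have h1 := hlow u hu _ (hrep u)
    have h2 := hlow v hv _ (hrep v)
    have e1 : (loc (rep u)).val - 5 = (loc (rep v)).val - 5 := congrArg Fin.val e
    have e2 : loc (rep u) = loc (rep v) := Fin.ext (by omega)
    have e3 : rep u = rep v := by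
      rw [(hin u (hpure u hu) _ (hrep u)).1, (hin v (hpure v hv) _ (hrep v)).1, e2]
    by_contra hne'
    exact Set.disjoint_left.mp (hdisj _ _ hne') (hrep u) (e3 ▸ hrep v)
  · intro u hu v huv
    obtain ⟨x, hx, y, hy, hxy⟩ := hadj u v huv
    have hxr : x = rep u := hsingle u hu x hx _ (hrep u)
    have h1 := hlow u hu x hx
    have h3 : fadj (loc x) (loc y) := hxy.1
    have h4 : (loc y).val < 5 ∧ (loc y).val + 5 ≠ (loc x).val := by
      unfold fadj at h3
      omega
    have hy' : y = emb t (loc y) := by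
      obtain ⟨p, rfl, hp⟩ := (hin u (hpure u hu) x hx).2
      rcases y with i | q
      · rw [emb_loc_inl]
      · have : p.1 = q.1 := hxy.2
        rw [← hp, this, emb_loc_inr]
    refine ⟨⟨(loc y).val, h4.1⟩, ?_, ?_⟩
    · intro e
      have e1 : (loc y).val = (loc (rep u)).val - 5 := congrArg Fin.val e
      rw [← hxr] at e1
      omega
    · show lab (emb t (loc y)) = some v
      rw [← hy']
      exact (hlab _ _).mpr hy

/-- The colour meant for the high vertex h. -/
def gam (σ : Fin 3 → Fin 4) (h : Fin 5) : ℕ :=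
  if hh : h.val < 3 then 4 * h.val + (σ ⟨h.val, hh⟩).val else 9 + h.val

theorem gam_inj (σ : Fin 3 → Fin 4) : Function.Injective (gam σ) := by
  intro a b e
  unfold gam at e
  apply Fin.ext
  split_ifs at e with h1 h2 h2
  · have := (σ ⟨a.val, h1⟩).isLt
    have := (σ ⟨b.val, h2⟩).isLt
    omega
  · have := (σ ⟨a.val, h1⟩).isLt
    omega
  · have := (σ ⟨b.val, h2⟩).isLt
    omega
  · omega

/-- The high vertex whose colour is left out of the list of a private vertex. -/
def miss : Fin 7 → Fin 5 := ![4, 3, 0, 1, 2, 3, 4]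

/-- The list assignment. -/
def lst : Vx → Finset ℕ
  | Sum.inl i => Finset.univ.image (fun x : Fin 4 => 4 * i.val + x.val)
  | Sum.inr p => (Finset.univ.erase (miss p.2)).image (gam p.1.1)

theorem lst_card_eq (v : Vx) : (lst v).card = 3 + 1 := by
  rcases v with i | p
  · simp only [lst]
    rw [Finset.card_image_of_injective]
    · simp
    · intro a b e
      exact Fin.ext (by simpa using e)
  · simp only [lst]
    rw [Finset.card_image_of_injective _ (gam_inj _), Finset.card_erase_of_mem (Finset.mem_univ _)]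
    simp

theorem lst_card (v : Vx) : 3 + 1 ≤ (lst v).card := (lst_card_eq v).ge

theorem adj_tri : ∀ (j : Fin 7) (h : Fin 5) (hh : h.val < 3), h ≠ miss j →
    fadj ⟨h.val, by omega⟩ ⟨j.val + 3, by omega⟩ := by decide +kernel

theorem adj_low : ∀ (l h : Fin 5), h ≠ miss ⟨l.val + 2, by omega⟩ →
    fadj ⟨h.val, by omega⟩ ⟨l.val + 2 + 3, by omega⟩ := by decide +kernel

theorem exists_star (c : Vx → ℕ) (hc : ∀ v, c v ∈ lst v) :
    ∃ v x y z : Vx, x ≠ y ∧ x ≠ z ∧ y ≠ z ∧ G.Adj v x ∧ G.Adj v y ∧ G.Adj v z ∧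
      c x = c v ∧ c y = c v ∧ c z = c v := by
  classical
  have h1 : ∀ i : Fin 3, ∃ x : Fin 4, c (Sum.inl i) = 4 * i.val + x.val := by
    intro i
    obtain ⟨x, _, e⟩ := Finset.mem_image.mp (hc (Sum.inl i))
    exact ⟨x, e.symm⟩
  choose σ hσ using h1
  have h2 : ∀ (n j : Fin 7), ∃ h : Fin 5, h ≠ miss j ∧ c (Sum.inr ((σ, n), j)) = gam σ h := by
    intro n j
    obtain ⟨h, hh, e⟩ := Finset.mem_image.mp (hc (Sum.inr ((σ, n), j)))
    exact ⟨h, (Finset.mem_erase.mp hh).1, e.symm⟩
  choose hd hd1 hd2 using h2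
  by_cases hbad : ∀ n : Fin 7, ∃ j : Fin 7, (hd n j).val < 3
  · choose j hj using hbad
    let f : Fin 7 → Fin 3 := fun n => ⟨(hd n (j n)).val, hj n⟩
    obtain ⟨i, hi⟩ := Fintype.exists_lt_card_fiber_of_mul_lt_card f (n := 2) (by simp)
    obtain ⟨a, b, d, ha, hb, hd', hab, had, hbd⟩ := Finset.two_lt_card_iff.mp hi
    have key : ∀ n, f n = i → G.Adj (Sum.inl i) (Sum.inr ((σ, n), j n)) ∧
        c (Sum.inr ((σ, n), j n)) = c (Sum.inl i) := by
      intro n hn
      subst hn
      refine ⟨⟨adj_tri (j n) (hd n (j n)) (hj n) (hd1 n (j n)), trivial⟩, ?_⟩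
      rw [hd2, hσ]
      unfold gam
      rw [dif_pos (hj n)]
    have ka := key a (Finset.mem_filter.mp ha).2
    have kb := key b (Finset.mem_filter.mp hb).2
    have kd := key d (Finset.mem_filter.mp hd').2
    refine ⟨Sum.inl i, _, _, _, ?_, ?_, ?_, ka.1, kb.1, kd.1, ka.2, kb.2, kd.2⟩
    · intro e; apply hab; simpa [cp] using congrArg cp e
    · intro e; apply had; simpa [cp] using congrArg cp e
    · intro e; apply hbd; simpa [cp] using congrArg cp e
  · push Not at hbad
    obtain ⟨n, hn⟩ := hbad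
    let f : Fin 5 → Fin 2 := fun l => ⟨(hd n ⟨l.val + 2, by omega⟩).val - 3, by omega⟩
    obtain ⟨i, hi⟩ := Fintype.exists_lt_card_fiber_of_mul_lt_card f (n := 2) (by simp)
    obtain ⟨a, b, d, ha, hb, hd', hab, had, hbd⟩ := Finset.two_lt_card_iff.mp hi
    have hz : (hd n ⟨i.val, by omega⟩).val = i.val + 3 := by
      have e1 := hn ⟨i.val, by omega⟩
      have e2 := hd1 n ⟨i.val, by omega⟩
      have e3 := (hd n ⟨i.val, by omega⟩).isLt
      have e4 : (hd n ⟨i.val, by omega⟩).val ≠ (miss ⟨i.val, by omega⟩).val :=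
        fun e => e2 (Fin.ext e)
      fin_cases i
      · have : (miss ⟨0, by omega⟩).val = 4 := rfl
        simp only at e1 e3 e4 ⊢
        omega
      · have : (miss ⟨1, by omega⟩).val = 3 := rfl
        simp only at e1 e3 e4 ⊢
        omega
    have key : ∀ l : Fin 5, f l = i →
        G.Adj (Sum.inr ((σ, n), ⟨i.val, by omega⟩)) (Sum.inr ((σ, n), ⟨l.val + 2, by omega⟩)) ∧
        c (Sum.inr ((σ, n), ⟨l.val + 2, by omega⟩)) = c (Sum.inr ((σ, n), ⟨i.val, by omega⟩)) := by
      intro l hl
      have e1 : (hd n ⟨l.val + 2, by omega⟩).val - 3 = i.val := congrArg Fin.val hl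
      have e2 := hn ⟨l.val + 2, by omega⟩
      have e3 : hd n ⟨l.val + 2, by omega⟩ = hd n ⟨i.val, by omega⟩ := Fin.ext (by omega)
      refine ⟨⟨?_, rfl⟩, by rw [hd2, hd2, e3]⟩
      have e4 := adj_low l _ (hd1 n ⟨l.val + 2, by omega⟩)
      have e5 : (⟨(hd n ⟨l.val + 2, by omega⟩).val, by omega⟩ : Fin 10) =
          loc (Sum.inr ((σ, n), ⟨i.val, by omega⟩)) := by
        apply Fin.ext
        simp only [loc]
        omega
      rw [e5] at e4
      exact e4
    have ka := key a (Finset.mem_filter.mp ha).2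
    have kb := key b (Finset.mem_filter.mp hb).2
    have kd := key d (Finset.mem_filter.mp hd').2
    have hne : ∀ l l' : Fin 5, l ≠ l' →
        (Sum.inr ((σ, n), ⟨l.val + 2, by omega⟩) : Vx) ≠ Sum.inr ((σ, n), ⟨l'.val + 2, by omega⟩) := by
      intro l l' h e
      apply h
      have := congrArg (fun v => (loc v).val) e
      simp only [loc] at this
      exact Fin.ext (by omega)
    exact ⟨_, _, _, _, hne a b hab, hne a d had, hne b d hbd, ka.1, kb.1, kd.1, ka.2, kb.2, kd.2⟩

theorem singleton_connected (v : Vx) : (G.induce ({v} : Set Vx)).Connected := by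
  have : Nonempty ({v} : Set Vx) := ⟨⟨v, rfl⟩⟩
  refine ⟨fun a b => ?_⟩
  have : a = b := Subtype.ext (a.2.trans b.2.symm)
  subst this
  exact SimpleGraph.Reachable.refl _

theorem G_minor_free : ¬ ∃ (A : Fin 3 → Set Vx) (B : Fin 4 → Set Vx),
        (∀ i, (G.induce (A i)).Connected) ∧ (∀ w, (G.induce (B w)).Connected) ∧
        (∀ i j, i ≠ j → Disjoint (A i) (A j)) ∧
        (∀ w w', w ≠ w' → Disjoint (B w) (B w')) ∧
        (∀ i w, Disjoint (A i) (B w)) ∧
        (∀ i w, ∃ x ∈ A i, ∃ y ∈ B w, G.Adj x y) ∧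
        (∀ w w', star.Adj w w' → ∃ x ∈ B w, ∃ y ∈ B w', G.Adj x y) := by
  rintro ⟨A, B, hA, hB, hAA, hBB, hAB, hadj1, hadj2⟩
  apply no_model (Sum.elim A B)
  · rintro (u | u)
    · exact hA u
    · exact hB u
  · rintro (u | u) (v | v) h
    · exact hAA u v (fun e => h (congrArg _ e))
    · exact hAB u v
    · exact (hAB v u).symm
    · exact hBB u v (fun e => h (congrArg _ e))
  · rintro (u | u) (v | v) h
    · exact h.elim
    · exact hadj1 u v
    · obtain ⟨x, hx, y, hy, hxy⟩ := hadj1 v u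
      exact ⟨y, hy, x, hx, hxy.symm⟩
    · exact hadj2 u v h

end Pool.Agent.Lib.MP_8cd7cf_co
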