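import Mathlib

set_option autoImplicit false

namespace Pool.Agent.Lib.MP_8cd7cf_co.TwoPole

variable {V : Type}

/-- Reachability inside the vertex set `A`. -/
def Rch (G : SimpleGraph V) (A : Set V) (u v : V) : Prop :=
  Relation.ReflTransGen (fun x y => x ∈ A ∧ y ∈ A ∧ G.Adj x y) u v

/-- `A` is empty or induces a connected subgraph. -/
def Conn (G : SimpleGraph V) (A : Set V) : Prop := ∀ u ∈ A, ∀ v ∈ A, Rch G A u v

/-- `u` has a neighbour in `A`. -/
def Nb (G : SimpleGraph V) (A : Set V) (u : V) : Prop := ∃ a ∈ A, G.Adj u a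

variable {G : SimpleGraph V}

theorem Rch.mono {A B : Set V} (h : A ⊆ B) {u v : V} (huv : Rch G A u v) : Rch G B u v := by
  induction huv with
  | refl => exact Relation.ReflTransGen.refl
  | tail _ hb ih => exact Relation.ReflTransGen.tail ih ⟨h hb.1, h hb.2.1, hb.2.2⟩

theorem Rch.symm {A : Set V} {u v : V} (huv : Rch G A u v) : Rch G A v u := by
  induction huv with
  | refl => exact Relation.ReflTransGen.refl
  | tail _ hb ih => exact Relation.ReflTransGen.head ⟨hb.2.1, hb.1, hb.2.2.symm⟩ ih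

theorem Rch.trans {A : Set V} {u v w : V} (h1 : Rch G A u v) (h2 : Rch G A v w) : Rch G A u w :=
  Relation.ReflTransGen.trans h1 h2

theorem Rch.step {A : Set V} {u v : V} (hu : u ∈ A) (hv : v ∈ A) (h : G.Adj u v) : Rch G A u v :=
  Relation.ReflTransGen.single ⟨hu, hv, h⟩

theorem conn_empty : Conn G (∅ : Set V) := fun _ hu => hu.elim

theorem conn_singleton (y : V) : Conn G ({y} : Set V) := by
  intro u hu v hv
  rw [Set.mem_singleton_iff] at hu hv
  subst hu; subst hv
  exact Relation.ReflTransGen.refl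

theorem conn_union_of_rch {X Z : Set V} (hX : Conn G X)
    (hZ : ∀ z ∈ Z, ∃ x ∈ X, Rch G (X ∪ Z) x z) : Conn G (X ∪ Z) := by
  have key : ∀ u ∈ X ∪ Z, ∃ x ∈ X, Rch G (X ∪ Z) x u := by
    intro u hu
    rcases hu with hu | hu
    · exact ⟨u, hu, Relation.ReflTransGen.refl⟩
    · exact hZ u hu
  intro u hu v hv
  obtain ⟨x, hx, hxu⟩ := key u hu
  obtain ⟨y, hy, hyv⟩ := key v hv
  exact (hxu.symm.trans ((hX x hx y hy).mono Set.subset_union_left)).trans hyv

theorem conn_union_of_nb {X Z : Set V} (hX : Conn G X) (hZ : ∀ z ∈ Z, Nb G X z) :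
    Conn G (X ∪ Z) := by
  apply conn_union_of_rch hX
  intro z hz
  obtain ⟨a, ha, hza⟩ := hZ z hz
  exact ⟨a, ha, Rch.step (Or.inl ha) (Or.inr hz) hza.symm⟩

theorem Nb.mono {A B : Set V} (h : A ⊆ B) {u : V} (hu : Nb G A u) : Nb G B u := by
  obtain ⟨a, ha, hua⟩ := hu
  exact ⟨a, h ha, hua⟩

theorem nb_union {A B : Set V} {u : V} : Nb G (A ∪ B) u ↔ Nb G A u ∨ Nb G B u := by
  constructor
  · rintro ⟨a, ha | ha, hua⟩
    · exact Or.inl ⟨a, ha, hua⟩
    · exact Or.inr ⟨a, ha, hua⟩
  · rintro (h | h)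
    · exact h.mono Set.subset_union_left
    · exact h.mono Set.subset_union_right

/-- A walk inside `T` from a vertex of `P` to a vertex outside `P` crosses an edge out of `P`. -/
theorem Rch.cross {T P : Set V} {u v : V} (huv : Rch G T u v) (hu : u ∈ P) (hv : v ∉ P) :
    ∃ x ∈ T, ∃ y ∈ T, x ∈ P ∧ y ∉ P ∧ G.Adj x y := by
  induction huv with
  | refl => exact (hv hu).elim
  | @tail b c _ hb ih =>
    by_cases hbP : b ∈ P
    · exact ⟨b, hb.1, c, hb.2.1, hbP, hv, hb.2.2⟩
    · exact ih hbP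

/-- `S` has at most one vertex, or is dominated by each of two disjoint connected sets outside it
whose union is connected. -/
def Good (G : SimpleGraph V) (S : Set V) : Prop :=
  S.Subsingleton ∨ ∃ A B : Set V, Conn G A ∧ Conn G B ∧ Conn G (A ∪ B) ∧ Disjoint A B ∧
    Disjoint A S ∧ Disjoint B S ∧ ∀ s ∈ S, Nb G A s ∧ Nb G B s

theorem Good.mono {S T : Set V} (h : Good G S) (hT : T ⊆ S) : Good G T := by
  rcases h with h | ⟨A, B, h1, h2, h3, h4, h5, h6, h7⟩
  · exact Or.inl (h.anti hT)
  · exact Or.inr ⟨A, B, h1, h2, h3, h4, h5.mono_right hT, h6.mono_right hT,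
      fun s hs => h7 s (hT hs)⟩

/-- `c` colours `U` from the lists, and every connected monochromatic subset of `U` is good. -/
def Nice (G : SimpleGraph V) (U : Set V) (L : V → Finset ℕ) (c : V → ℕ) : Prop :=
  (∀ u ∈ U, c u ∈ L u) ∧
    ∀ T ⊆ U, Conn G T → (∀ x ∈ T, ∀ y ∈ T, c x = c y) → Good G T

theorem nice_const {S : Set V} {L : V → Finset ℕ} {β : ℕ} (hS : Good G S)
    (hβ : ∀ s ∈ S, β ∈ L s) : Nice G S L (fun _ => β) :=
  ⟨hβ, fun _ hT _ _ => hS.mono hT⟩

theorem glue {U1 U2 : Set V} {L : V → Finset ℕ} {c1 c2 : V → ℕ} (h1 : Nice G U1 L c1)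
    (h2 : Nice G U2 L c2) (h : ∀ x ∈ U1, ∀ y ∈ U2, G.Adj x y → c1 x ≠ c2 y) :
    ∃ c, Nice G (U1 ∪ U2) L c := by
  classical
  refine ⟨fun v => if v ∈ U1 then c1 v else c2 v, ?_, ?_⟩
  · intro u hu
    by_cases hu1 : u ∈ U1
    · simp only [hu1, if_true]; exact h1.1 u hu1
    · simp only [hu1, if_false]; exact h2.1 u (hu.resolve_left hu1)
  · intro T hT hc hm
    by_cases hall : T ⊆ U1
    · apply h1.2 T hall hc
      intro x hx y hy
      have := hm x hx y hy
      simpa only [hall hx, hall hy, if_true] using this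
    · have hnone : ∀ x ∈ T, x ∉ U1 := by
        intro x hx hx1
        obtain ⟨y, hy, hy1⟩ := Set.not_subset.1 hall
        obtain ⟨a, ha, b, hb, ha1, hb1, hab⟩ := (hc x hx y hy).cross hx1 hy1
        have := hm a ha b hb
        simp only [ha1, hb1, if_true, if_false] at this
        exact h a ha1 b ((hT hb).resolve_left hb1) hab this
      apply h2.2 T (fun x hx => (hT hx).resolve_left (hnone x hx)) hc
      intro x hx y hy
      have := hm x hx y hy
      simpa only [hnone x hx, hnone y hy, if_false] using this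

open Classical in
/-- Remove the colour `β` from the lists of the neighbours of `S`. -/
noncomputable def cut (G : SimpleGraph V) (S : Set V) (β : ℕ) (L : V → Finset ℕ) (u : V) :
    Finset ℕ :=
  if Nb G S u then (L u).erase β else L u

theorem cut_subset (S : Set V) (β : ℕ) (L : V → Finset ℕ) (u : V) : cut G S β L u ⊆ L u := by
  unfold cut
  split_ifs
  · exact Finset.erase_subset _ _
  · exact Finset.Subset.refl _

theorem cut_card (S : Set V) (β : ℕ) (L : V → Finset ℕ) (u : V) :
    (L u).card ≤ (cut G S β L u).card + 1 := by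
  unfold cut
  split_ifs
  · have := Finset.pred_card_le_card_erase (s := L u) (a := β)
    omega
  · omega

theorem cut_of_not_nb {S : Set V} {β : ℕ} {L : V → Finset ℕ} {u : V} (h : ¬ Nb G S u) :
    cut G S β L u = L u := by
  unfold cut
  rw [if_neg h]

theorem cut_of_not_mem {S : Set V} {β : ℕ} {L : V → Finset ℕ} {u : V} (h : β ∉ L u) :
    cut G S β L u = L u := by
  unfold cut
  split_ifs
  · exact Finset.erase_eq_of_notMem h
  · rfl

/-- Add a good set coloured `β` to a colouring of the rest from the reduced lists. -/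
theorem glue_cut {S U : Set V} {L : V → Finset ℕ} {β : ℕ} {c : V → ℕ} (hS : Good G S)
    (hβ : ∀ s ∈ S, β ∈ L s) (h : Nice G U (cut G S β L) c) : ∃ c', Nice G (S ∪ U) L c' := by
  apply glue (nice_const hS hβ) (c2 := c)
  · exact ⟨fun u hu => cut_subset S β L u (h.1 u hu), h.2⟩
  · intro x hx y hy hxy e
    have h1 := h.1 y hy
    unfold cut at h1
    rw [if_pos ⟨x, hx, hxy.symm⟩] at h1
    exact (Finset.mem_erase.1 h1).1 e.symm

theorem main [Finite V] (U : Set V) : ∀ (A B : Set V) (L : V → Finset ℕ), Conn G A → Conn G B →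
    Conn G (A ∪ B) → Disjoint A B → Disjoint A U → Disjoint B U →
    (∀ u ∈ U, 1 ≤ (L u).card) → (∀ u ∈ U, ¬ Nb G A u ∨ ¬ Nb G B u → 2 ≤ (L u).card) →
    (∀ u ∈ U, ¬ Nb G A u → ¬ Nb G B u → 3 ≤ (L u).card) → ∃ c, Nice G U L c := by
  induction U using WellFoundedLT.induction with
  | ind U ih =>
  intro A B L hA hB hAB dAB dAU dBU l1 l2 l3
  by_cases hU : U = ∅
  · subst hU
    exact ⟨fun _ => 0, fun _ hu => hu.elim,
      fun T hT _ _ => Or.inl (Set.subsingleton_empty.anti hT)⟩
  by_cases hboth : ∃ y ∈ U, Nb G A y ∧ Nb G B y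
  · obtain ⟨y, hyU, hyA, hyB⟩ := hboth
    obtain ⟨β, hβ⟩ : (L y).Nonempty := Finset.card_pos.1 (l1 y hyU)
    set W : Set V := {u | u ∈ U ∧ Nb G A u ∧ β ∈ L u} with hW
    set R : Set V := {u | ∃ b ∈ B,
      Relation.TransGen (fun x z => z ∈ U ∧ z ∉ W ∧ G.Adj x z) b u} with hR
    set S : Set V := {w | w ∈ W ∧ Nb G (B ∪ R) w} with hS
    set C : Set V := {u | u ∈ U ∧ u ∉ S ∧ u ∉ R} with hC
    have hRsub : ∀ u ∈ R, u ∈ U ∧ u ∉ W := by
      rintro u ⟨b, _, hb⟩
      cases hb with
      | single h => exact ⟨h.1, h.2.1⟩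
      | tail _ h => exact ⟨h.1, h.2.1⟩
    have hRcl : ∀ u ∈ U, u ∉ W → Nb G (B ∪ R) u → u ∈ R := by
      rintro u hu huW ⟨x, hx | ⟨b, hb, hbx⟩, hux⟩
      · exact ⟨x, hx, Relation.TransGen.single ⟨hu, huW, hux.symm⟩⟩
      · exact ⟨b, hb, Relation.TransGen.tail hbx ⟨hu, huW, hux.symm⟩⟩
    have hRr : ∀ z ∈ R, ∃ x ∈ B, Rch G (B ∪ R) x z := by
      rintro z ⟨b, hb, hbz⟩
      refine ⟨b, hb, ?_⟩
      induction hbz with
      | single h =>
        exact Rch.step (Or.inl hb) (Or.inr ⟨b, hb, Relation.TransGen.single h⟩) h.2.2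
      | tail h1 h2 ih2 =>
        exact ih2.trans (Rch.step (Or.inr ⟨b, hb, h1⟩)
          (Or.inr ⟨b, hb, Relation.TransGen.tail h1 h2⟩) h2.2.2)
    have hBR : Conn G (B ∪ R) := conn_union_of_rch hB hRr
    have hABR : Conn G (A ∪ (B ∪ R)) := by
      rw [← Set.union_assoc]
      apply conn_union_of_rch hAB
      intro z hz
      obtain ⟨x, hx, hxz⟩ := hRr z hz
      refine ⟨x, Or.inr hx, hxz.mono ?_⟩
      rw [Set.union_assoc]
      exact Set.subset_union_right
    have hSU : S ⊆ U := fun s hs => hs.1.1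
    have hRU : R ⊆ U := fun s hs => (hRsub s hs).1
    have hCU : C ⊆ U := fun s hs => hs.1
    have hyS : y ∈ S := ⟨⟨hyU, hyA, hβ⟩, hyB.mono Set.subset_union_left⟩
    have dRS : Disjoint R S := Set.disjoint_left.2 fun u hu hs => (hRsub u hu).2 hs.1
    have dABR : Disjoint A (B ∪ R) := Set.disjoint_union_right.2 ⟨dAB, dAU.mono_right hRU⟩
    have hGood : Good G S := Or.inr ⟨A, B ∪ R, hA, hBR, hABR, dABR, dAU.mono_right hSU,
      Set.disjoint_union_left.2 ⟨dBU.mono_right hSU, dRS⟩, fun s hs => ⟨hs.1.2.1, hs.2⟩⟩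
    have hCnb : ∀ u ∈ C, ¬ Nb G (B ∪ R) u := by
      intro u hu hnb
      by_cases huW : u ∈ W
      · exact hu.2.1 ⟨huW, hnb⟩
      · exact hu.2.2 (hRcl u hu.1 huW hnb)
    have hRlt : R < U :=
      ⟨hRU, fun h => Set.disjoint_left.1 dRS (h hyU) hyS⟩
    have hClt : C < U := ⟨hCU, fun h => (h hyU).2.1 hyS⟩
    obtain ⟨c1, hc1⟩ : ∃ c, Nice G R (cut G S β L) c := by
      apply ih R hRlt (A ∪ S) B (cut G S β L)
      · exact conn_union_of_nb hA fun z hz => hz.1.2.1
      · exact hB
      · rw [Set.union_right_comm]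
        exact conn_union_of_nb hAB fun z hz => hz.1.2.1.mono Set.subset_union_left
      · exact Set.disjoint_union_left.2 ⟨dAB, (dBU.mono_right hSU).symm⟩
      · exact Set.disjoint_union_left.2 ⟨dAU.mono_right hRU, dRS.symm⟩
      · exact dBU.mono_right hRU
      · intro u hu
        by_cases huA : Nb G A u
        · rw [cut_of_not_mem fun hb => (hRsub u hu).2 ⟨hRU hu, huA, hb⟩]
          exact l1 u (hRU hu)
        · have h1 := l2 u (hRU hu) (Or.inl huA)
          have h2 := cut_card (G := G) S β L u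
          omega
      · intro u hu hor
        by_cases huA : Nb G A u
        · rw [cut_of_not_mem fun hb => (hRsub u hu).2 ⟨hRU hu, huA, hb⟩]
          apply l2 u (hRU hu)
          rcases hor with h | h
          · exact (h (huA.mono Set.subset_union_left)).elim
          · exact Or.inr h
        · rcases hor with h | h
          · rw [cut_of_not_nb fun hb => h (hb.mono Set.subset_union_right)]
            exact l2 u (hRU hu) (Or.inl huA)
          · have h1 := l3 u (hRU hu) huA h
            have h2 := cut_card (G := G) S β L u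
            omega
      · intro u hu h1 h2
        rw [cut_of_not_nb fun hb => h1 (hb.mono Set.subset_union_right)]
        exact l3 u (hRU hu) (fun hb => h1 (hb.mono Set.subset_union_left)) h2
    obtain ⟨c2, hc2⟩ : ∃ c, Nice G C (cut G S β L) c := by
      have hnB : ∀ u ∈ C, ¬ Nb G B u := fun u hu hb => hCnb u hu (hb.mono Set.subset_union_left)
      apply ih C hClt A ((B ∪ R) ∪ S) (cut G S β L)
      · exact hA
      · exact conn_union_of_nb hBR fun z hz => hz.2
      · rw [← Set.union_assoc]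
        exact conn_union_of_nb hABR fun z hz => hz.1.2.1.mono Set.subset_union_left
      · exact Set.disjoint_union_right.2 ⟨dABR, dAU.mono_right hSU⟩
      · exact dAU.mono_right hCU
      · refine Set.disjoint_union_left.2 ⟨Set.disjoint_union_left.2 ⟨dBU.mono_right hCU, ?_⟩, ?_⟩
        · exact Set.disjoint_left.2 fun u hu hc => hc.2.2 hu
        · exact Set.disjoint_left.2 fun u hu hc => hc.2.1 hu
      · intro u hu
        have h1 := l2 u (hCU hu) (Or.inr (hnB u hu))
        have h2 := cut_card (G := G) S β L u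
        omega
      · intro u hu hor
        rcases hor with h | h
        · have h1 := l3 u (hCU hu) h (hnB u hu)
          have h2 := cut_card (G := G) S β L u
          omega
        · rw [cut_of_not_nb fun hb => h (hb.mono Set.subset_union_right)]
          exact l2 u (hCU hu) (Or.inr (hnB u hu))
      · intro u hu h1 h2
        rw [cut_of_not_nb fun hb => h2 (hb.mono Set.subset_union_right)]
        exact l3 u (hCU hu) h1 (hnB u hu)
    obtain ⟨c3, hc3⟩ := glue hc1 hc2 fun x hx z hz hxz _ => hCnb z hz ⟨x, Or.inr hx, hxz.symm⟩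
    obtain ⟨c4, hc4⟩ := glue_cut hGood (fun s hs => hs.1.2.2) hc3
    have hEq : S ∪ (R ∪ C) = U := by
      apply Set.Subset.antisymm
      · exact Set.union_subset hSU (Set.union_subset hRU hCU)
      · intro u hu
        by_cases h1 : u ∈ S
        · exact Or.inl h1
        by_cases h2 : u ∈ R
        · exact Or.inr (Or.inl h2)
        · exact Or.inr (Or.inr ⟨hu, h1, h2⟩)
    exact ⟨c4, hEq ▸ hc4⟩
  · have l2' : ∀ u ∈ U, 2 ≤ (L u).card := by
      intro u hu
      apply l2 u hu
      by_contra hc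
      push Not at hc
      exact hboth ⟨u, hu, hc.1, hc.2⟩
    obtain ⟨y, hyU, A', hA', hA'y, dA'U, l3'⟩ : ∃ y ∈ U, ∃ A' : Set V, Conn G A' ∧
        Conn G (A' ∪ {y}) ∧ Disjoint A' U ∧ ∀ u ∈ U, ¬ Nb G A' u → 3 ≤ (L u).card := by
      by_cases hex : ∃ y ∈ U, Nb G (A ∪ B) y
      · obtain ⟨y, hyU, hy⟩ := hex
        refine ⟨y, hyU, A ∪ B, hAB, conn_union_of_nb hAB ?_,
          Set.disjoint_union_left.2 ⟨dAU, dBU⟩, ?_⟩
        · intro z hz
          rw [Set.mem_singleton_iff] at hz
          exact hz ▸ hy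
        · intro u hu h
          exact l3 u hu (fun hb => h (hb.mono Set.subset_union_left))
            (fun hb => h (hb.mono Set.subset_union_right))
      · obtain ⟨y, hyU⟩ := Set.nonempty_iff_ne_empty.2 hU
        refine ⟨y, hyU, ∅, conn_empty, ?_, Set.empty_disjoint _, ?_⟩
        · rw [Set.empty_union]; exact conn_singleton y
        · intro u hu _
          exact l3 u hu (fun hb => hex ⟨u, hu, hb.mono Set.subset_union_left⟩)
            (fun hb => hex ⟨u, hu, hb.mono Set.subset_union_right⟩)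
    obtain ⟨β, hβ⟩ : (L y).Nonempty := Finset.card_pos.1 (l1 y hyU)
    have hsub : U \ {y} ⊆ U := Set.sdiff_subset
    have hlt : U \ {y} < U := ⟨hsub, fun h => (h hyU).2 rfl⟩
    obtain ⟨c1, hc1⟩ : ∃ c, Nice G (U \ {y}) (cut G {y} β L) c := by
      apply ih (U \ {y}) hlt A' {y} (cut G {y} β L) hA' (conn_singleton y) hA'y
      · exact dA'U.mono_right (Set.singleton_subset_iff.2 hyU)
      · exact dA'U.mono_right hsub
      · exact Set.disjoint_left.2 fun u hu hc => hc.2 hu
      · intro u hu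
        have h1 := l2' u hu.1
        have h2 := cut_card (G := G) {y} β L u
        omega
      · intro u hu hor
        rcases hor with h | h
        · have h1 := l3' u hu.1 h
          have h2 := cut_card (G := G) {y} β L u
          omega
        · rw [cut_of_not_nb h]
          exact l2' u hu.1
      · intro u hu h1 h2
        rw [cut_of_not_nb h2]
        exact l3' u hu.1 h1
    obtain ⟨c2, hc2⟩ := glue_cut (G := G) (S := {y}) (Or.inl Set.subsingleton_singleton)
      (fun s hs => by rw [Set.mem_singleton_iff] at hs; exact hs ▸ hβ) hc1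
    have hEq : ({y} : Set V) ∪ (U \ {y}) = U :=
      Set.union_sdiff_cancel (Set.singleton_subset_iff.2 hyU)
    exact ⟨c2, hEq ▸ hc2⟩

theorem conn_of_connected {A : Set V} (h : (G.induce A).Connected) : Conn G A := by
  intro u hu v hv
  have h1 := (SimpleGraph.reachable_iff_reflTransGen _ _).1 (h.preconnected ⟨u, hu⟩ ⟨v, hv⟩)
  have key : ∀ a b : A, Relation.ReflTransGen (G.induce A).Adj a b → Rch G A a b := by
    intro a b hab
    induction hab with
    | refl => exact Relation.ReflTransGen.refl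
    | @tail b c _ hb ih => exact Relation.ReflTransGen.tail ih ⟨b.2, c.2, hb⟩
  exact key _ _ h1

theorem connected_of_conn {A : Set V} (h : Conn G A) (hne : A.Nonempty) :
    (G.induce A).Connected := by
  have : Nonempty A := hne.to_subtype
  refine ⟨fun u v => ?_⟩
  have key : ∀ x : V, Rch G A u x → ∀ hx : x ∈ A, (G.induce A).Reachable u ⟨x, hx⟩ := by
    intro x hx
    induction hx with
    | refl => intro _; exact SimpleGraph.Reachable.refl _
    | @tail b c _ hb ih =>
      intro hc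
      exact (ih hb.1).trans (SimpleGraph.Adj.reachable (show (G.induce A).Adj ⟨b, hb.1⟩ ⟨c, hc⟩
        from hb.2.2))
  exact key v (h u u.2 v v.2) v.2

theorem conn_iUnion {W : Type} {H : SimpleGraph W} (hH : H.Connected) (M : W → Set V)
    (h1 : ∀ w, (G.induce (M w)).Connected)
    (h3 : ∀ w w', H.Adj w w' → ∃ x ∈ M w, ∃ y ∈ M w', G.Adj x y) : Conn G (⋃ w, M w) := by
  have key : ∀ w w', Relation.ReflTransGen H.Adj w w' → ∀ u ∈ M w, ∀ v ∈ M w',
      Rch G (⋃ w, M w) u v := by
    intro w w' h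
    induction h with
    | refl =>
      intro u hu v hv
      exact (conn_of_connected (h1 w) u hu v hv).mono (Set.subset_iUnion M w)
    | @tail b c _ hb ih =>
      intro u hu v hv
      obtain ⟨x, hx, y, hy, hxy⟩ := h3 b c hb
      exact ((ih u hu x hx).trans (Rch.step (Set.subset_iUnion M b hx) (Set.subset_iUnion M c hy)
        hxy)).trans ((conn_of_connected (h1 c) y hy v hv).mono (Set.subset_iUnion M c))
  intro u hu v hv
  obtain ⟨w, hw⟩ := Set.mem_iUnion.1 hu
  obtain ⟨w', hw'⟩ := Set.mem_iUnion.1 hv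
  exact key w w' ((SimpleGraph.reachable_iff_reflTransGen _ _).1 (hH.preconnected w w')) u hw v hw'

/-- The colouring theorem in the form used by the hand-in. -/
theorem exists_colouring [Finite V] (G : SimpleGraph V) (L : V → Finset ℕ)
    (hL : ∀ v, 3 ≤ (L v).card) :
    ∃ c : V → ℕ, (∀ v, c v ∈ L v) ∧ ∀ T : Set V, Conn G T → (∀ x ∈ T, ∀ y ∈ T, c x = c y) →
      T.Nontrivial → ∃ A B : Set V, (G.induce A).Connected ∧ (G.induce B).Connected ∧
        Disjoint A B ∧ Disjoint A T ∧ Disjoint B T ∧ (∃ a ∈ A, ∃ b ∈ B, G.Adj a b) ∧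
        ∀ s ∈ T, Nb G A s ∧ Nb G B s := by
  obtain ⟨c, hc1, hc2⟩ := main (G := G) Set.univ ∅ ∅ L conn_empty conn_empty
    (by rw [Set.empty_union]; exact conn_empty) (Set.empty_disjoint _) (Set.empty_disjoint _)
    (Set.empty_disjoint _) (fun u _ => by have := hL u; omega)
    (fun u _ _ => by have := hL u; omega) (fun u _ _ _ => hL u)
  refine ⟨c, fun v => hc1 v (Set.mem_univ v), ?_⟩
  intro T hT hm hnt
  rcases hc2 T (Set.subset_univ T) hT hm with h | ⟨A, B, h1, h2, h3, h4, h5, h6, h7⟩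
  · exact (hnt.not_subsingleton h).elim
  · obtain ⟨s, hs⟩ := hnt.nonempty
    obtain ⟨⟨a, ha, _⟩, ⟨b, hb, _⟩⟩ := h7 s hs
    refine ⟨A, B, connected_of_conn h1 ⟨a, ha⟩, connected_of_conn h2 ⟨b, hb⟩, h4, h5, h6, ?_, h7⟩
    obtain ⟨x, _, y, hy, hxA, hyA, hxy⟩ := (h3 a (Or.inl ha) b (Or.inr hb)).cross ha
      (fun h => Set.disjoint_left.1 h4 h hb)
    exact ⟨x, hxA, y, hy.resolve_left hyA, hxy⟩

end Pool.Agent.Lib.MP_8cd7cf_co.TwoPole
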